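import Pool.Agent.Run7.h283.Kept.RadicalsPositiveDensity

/-!
# Small points of fields generated by the roots `2^(1/n)`, `n` composed of a positive proportion of
all primes

Let `W` be the set of the primes `p` with `p² ∤ 2^(p-1) - 1`. It has positive lower density
(`Pool.Agent.Run7.h361.density`). For `P ⊆ W` we consider fields generated over a field `B` by
compatible roots `2^(1/n)` for all `n` composed of primes in `P`.

All fields are subfields of `AlgebraicClosure ℚ`; subgroups of the multiplicative group are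
subgroups of the unit group of `AlgebraicClosure ℚ`.
-/

set_option autoImplicit false

namespace Pool.Agent.Results.MP_f61260_nt.PositiveDensityRadicals

/-- the primes `p` with `p² ∤ 2^(p-1) - 1` -/
def W : Set ℕ := {p | p.Prime ∧ ¬ p ^ 2 ∣ 2 ^ (p - 1) - 1}

/-- `r n` is a compatible choice of `2^(1/n)`, for all `n` -/
def IsRootSystem (r : ℕ → AlgebraicClosure ℚ) : Prop :=
  r 1 = 2 ∧ ∀ m n : ℕ, 0 < m → 0 < n → r (m * n) ^ m = r n

/-- the positive integers all of whose prime factors belong to `P` -/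
def Composed (P : Set ℕ) : Set ℕ := {n | 0 < n ∧ ∀ p : ℕ, p.Prime → p ∣ n → p ∈ P}

/-- `β` lies in the division group of `Γ`: a positive power of `β` is an element of `Γ` -/
def InDivisionGroup (Γ : Subgroup (AlgebraicClosure ℚ)ˣ) (β : AlgebraicClosure ℚ) : Prop :=
  ∃ n : ℕ, 0 < n ∧ ∃ g ∈ Γ, β ^ n = (g : AlgebraicClosure ℚ)

/-- the group generated by `2` -/
noncomputable def two : Subgroup (AlgebraicClosure ℚ)ˣ :=
  Subgroup.closure {g | (g : AlgebraicClosure ℚ) = 2}

/-- the field generated over `K` by all roots of unity and by all `n`-th roots of all elements of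
`Γ`, for all positive integers `n` all of whose prime factors belong to `P₀` -/
noncomputable def smoothRootField (K : IntermediateField ℚ (AlgebraicClosure ℚ))
    (Γ : Subgroup (AlgebraicClosure ℚ)ˣ) (P₀ : Finset ℕ) :
    IntermediateField ℚ (AlgebraicClosure ℚ) :=
  K ⊔ IntermediateField.adjoin ℚ
    ({y | ∃ n : ℕ, 0 < n ∧ y ^ n = 1} ∪
      {y | ∃ n : ℕ, (0 < n ∧ ∀ q : ℕ, q.Prime → q ∣ n → q ∈ P₀) ∧
        ∃ g ∈ Γ, y ^ n = (g : AlgebraicClosure ℚ)})

/-- the field generated by all roots of unity of order composed of primes in `S` -/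
noncomputable def cyclotomicField (S : Set ℕ) : IntermediateField ℚ (AlgebraicClosure ℚ) :=
  IntermediateField.adjoin ℚ {y | ∃ m ∈ Composed S, y ^ m = 1}

/-- the primes of `T` divide no discriminant of a number field contained in `B` -/
def UnramifiedAt (B : IntermediateField ℚ (AlgebraicClosure ℚ)) (T : Set ℕ) : Prop :=
  ∀ F : IntermediateField ℚ (AlgebraicClosure ℚ), F ≤ B → ∀ _ : NumberField F,
    ∀ p ∈ T, ¬ (p : ℤ) ∣ NumberField.discr F

/-- the field generated over `B` by the roots `2^(1/n)`, `n` composed of primes in `P` -/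
noncomputable def radicalField (B : IntermediateField ℚ (AlgebraicClosure ℚ)) (P : Set ℕ)
    (r : ℕ → AlgebraicClosure ℚ) : IntermediateField ℚ (AlgebraicClosure ℚ) :=
  B ⊔ IntermediateField.adjoin ℚ {y | ∃ n ∈ Composed P, y = r n}

namespace Aux

open Pool.Agent.Results.MP_f61260_nt

lemma group_le {a : Fin 1 → ℕ} (ha : a = fun _ => 2) : MixedRadicalFields.group a ≤ two := by
  unfold MixedRadicalFields.group two
  rw [Subgroup.closure_le]
  rintro g ⟨i, hi⟩
  refine Subgroup.subset_closure ?_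
  rw [ha] at hi
  show (g : AlgebraicClosure ℚ) = 2
  rw [hi]
  norm_num

lemma div_mono {Γ Γ' : Subgroup (AlgebraicClosure ℚ)ˣ} (h : Γ ≤ Γ') {β : AlgebraicClosure ℚ}
    (hβ : MixedRadicalFields.InDivisionGroup Γ β) : InDivisionGroup Γ' β := by
  obtain ⟨n, hn, g, hg, e⟩ := hβ
  exact ⟨n, hn, g, h hg, e⟩

lemma field_le {P : Set ℕ} (hP : P ⊆ W) (B : IntermediateField ℚ (AlgebraicClosure ℚ))
    (r : ℕ → AlgebraicClosure ℚ) {a : Fin 1 → ℕ} (ha : a = fun _ => 2) {P' : Fin 1 → Set ℕ}
    (hP' : P' = fun _ => P) {ρ : Fin 1 → ℕ → AlgebraicClosure ℚ} (hρ : ρ = fun _ => r) :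
    radicalField B P r ≤ MixedRadicalFields.radicalField B a P' ρ := by
  unfold radicalField MixedRadicalFields.radicalField
  refine sup_le_sup le_rfl (IntermediateField.adjoin.mono ℚ _ _ ?_)
  rintro y ⟨n, hn, rfl⟩
  refine ⟨0, n, ?_, ?_⟩
  · rw [ha, hP']
    exact MP_7ab245_nt.RadicalsPositiveDensity.mem_exponents hP hn
  · rw [hρ]

lemma data {P : Set ℕ} (hP : P ⊆ W) {r : ℕ → AlgebraicClosure ℚ} (hr : IsRootSystem r)
    {a : Fin 1 → ℕ} (ha : a = fun _ => 2) {P' : Fin 1 → Set ℕ}
    (hP' : P' = fun _ => P) {ρ : Fin 1 → ℕ → AlgebraicClosure ℚ} (hρ : ρ = fun _ => r) :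
    MixedRadicalFields.Data a P' ρ := by
  refine ⟨fun i => ?_, fun i j hij => absurd (Subsingleton.elim i j) hij⟩
  rw [ha, hP', hρ]
  refine ⟨MP_7ab245_nt.RadicalsPositiveDensity.squarefree_two, le_rfl,
    MP_7ab245_nt.RadicalsPositiveDensity.few hP, ?_, hr.2⟩
  show r 1 = ((2 : ℕ) : AlgebraicClosure ℚ)
  rw [hr.1]
  norm_num

lemma primesOf_sub {P : Set ℕ} {a : Fin 1 → ℕ} (ha : a = fun _ => 2) {P' : Fin 1 → Set ℕ}
    (hP' : P' = fun _ => P) (i : Fin 1) : MixedRadicalFields.primesOf (a i) (P' i) ⊆ P ∪ {2} := by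
  rw [ha, hP']
  rintro p ⟨hp, h1 | h1⟩
  · exact Or.inl h1
  · exact Or.inr ((Nat.prime_dvd_prime_iff_eq hp Nat.prime_two).1 h1)

end Aux

open Aux in
/-- **Small points of fields generated by `2^(1/n)`, `n` composed of a positive proportion of all
primes.** Let `W` be the set of the primes `p` with `p² ∤ 2^(p-1) - 1`.

(0) For all large `x` at least `x / (50 log x)` primes `p ≤ x` belong to `W`.

(A) Let `K` be a number field, `Γ` a finitely generated subgroup of `ℚ̄*` and `P₀` a finite set of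
primes. There is `c > 0` such that for every field `B` with
`Γ ⊂ B ⊂ K(μ_∞, Γ^{1/n} : n composed of primes in P₀)` and every subset `P` of `W` such that `2` and
the primes in `P` are unramified in `B`, every nonzero element of the field generated over `B` by
compatible roots `2^(1/n)` for all `n` composed of primes in `P` which does not lie in the division
group of `Γ⟨2⟩` has absolute logarithmic Weil height at least `c`.

(B) There is an absolute constant `c > 0` such that for every `P ⊆ W` and every set `S` of odd primes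
disjoint from `P`, every nonzero element of `ℚ(2^(1/n), ζ_m : n composed of primes in P, m composed of
primes in S)` which does not lie in the division group of `⟨2⟩` has height at least `c`. -/
theorem result :
    (∃ x₀ : ℕ, ∀ x : ℕ, x₀ ≤ x →
      (x : ℝ) / (50 * Real.log x) ≤ ({p : ℕ | p ≤ x ∧ p ∈ W}.ncard : ℝ)) ∧
    (∀ (K : IntermediateField ℚ (AlgebraicClosure ℚ)), FiniteDimensional ℚ K →
      ∀ (Γ : Subgroup (AlgebraicClosure ℚ)ˣ), Γ.FG →
      ∀ (P₀ : Finset ℕ), (∀ p ∈ P₀, p.Prime) →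
      ∃ c : ℝ, 0 < c ∧
        ∀ B : IntermediateField ℚ (AlgebraicClosure ℚ), B ≤ smoothRootField K Γ P₀ →
        (∀ g ∈ Γ, (g : AlgebraicClosure ℚ) ∈ B) →
        ∀ P ⊆ W, UnramifiedAt B (P ∪ {2}) → ∀ r, IsRootSystem r →
          ∀ β ∈ radicalField B P r, β ≠ 0 → ¬ InDivisionGroup (Γ ⊔ two) β →
            c ≤ NumberField.absLogHeight₁ β) ∧
    (∃ c : ℝ, 0 < c ∧ ∀ P ⊆ W, ∀ S : Set ℕ, Disjoint P S → 2 ∉ S → ∀ r, IsRootSystem r →
      ∀ β ∈ radicalField (cyclotomicField S) P r, β ≠ 0 → ¬ InDivisionGroup two β →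
        c ≤ NumberField.absLogHeight₁ β) := by
  obtain ⟨a, ha⟩ : ∃ a : Fin 1 → ℕ, a = fun _ => 2 := ⟨_, rfl⟩
  refine ⟨Run7.h361.density, ?_, ?_⟩
  · intro K hK Γ hΓ P₀ hP₀
    obtain ⟨c, hc, h⟩ := MixedRadicalFields.result.1 K hK Γ hΓ P₀ hP₀
    refine ⟨c / 4000 ^ 1, by positivity, fun B hB hΓB P hP hunr r hr β hβ hβ0 hnd => ?_⟩
    refine h B hB hΓB 1 a (fun _ => P) (fun _ => r) (data hP hr ha rfl rfl) (fun i => ?_) β
      (field_le hP B r ha rfl rfl hβ) hβ0 (fun hdiv => hnd ?_)
    · intro F hF hnf p hp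
      exact hunr F hF hnf p (primesOf_sub ha rfl i hp)
    · exact div_mono (sup_le_sup le_rfl (group_le ha)) hdiv
  · obtain ⟨c, hc, h⟩ := MixedRadicalFields.result.2
    refine ⟨c / 4000 ^ 1, by positivity, fun P hP S hPS hS2 r hr β hβ hβ0 hnd => ?_⟩
    refine h 1 a (fun _ => P) (fun _ => r) (data hP hr ha rfl rfl) S (fun i => ?_) β
      (field_le hP _ r ha rfl rfl hβ) hβ0 (fun hdiv => hnd (div_mono (group_le ha) hdiv))
    rw [Set.disjoint_left]
    intro p hpS hp
    rcases primesOf_sub ha rfl i hp with h1 | h1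
    · exact Set.disjoint_left.1 hPS h1 hpS
    · rw [Set.mem_singleton_iff.1 h1] at hpS
      exact hS2 hpS

end Pool.Agent.Results.MP_f61260_nt.PositiveDensityRadicals
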