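import Mathlib
import Pool.Agent.Run7.h80.Rem.C

/-!
# Rémond's inequality for numbers with a decomposable minimal polynomial

Let `Γ` be any group of nonzero complex numbers, `Γ_div` its division group, `E = ℚ(Γ_div)` and let
`D_Γ(α)` be the degree of `α` over `E`. We prove Rémond's inequality

  `h(α) ≥ (1 / 400000) / D_Γ(α)`,

the constant being absolute, for all nonzero algebraic numbers `α` such that the minimal polynomial of
`α` over `E` has only one coefficient which is not a rational integer, and this coefficient has degree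
at least three over `ℚ`; with the exception of the polynomials `X ^ w + b` and `X ^ (2 a) + b X ^ a ± 1`,
the zeros of which are roots of elements of `E` or of units quadratic over `E`. The degree `D_Γ(α)`, the
integral coefficients and the degree over `ℚ` of the other coefficient are arbitrary.

More generally, if `f = T ^ l g(h)` is the minimal polynomial of `α` over `ℤ`, where `g` is irreducible
of degree at least three and `h` is a Laurent polynomial with integer coefficients not of the form
`± T ^ m + δ T ^ (-m) + c`, `δ = 0, 1, -1`, then `h(α) ≥ (1 / (400000 A)) / D_Γ(α)` provided that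
`deg f ≤ A deg g D_Γ(α)`, that is, if the degree of `α` over `E` is not much smaller than the degree over
`ℚ(h(α))`.

Method. For the first part, all coefficients of the minimal polynomial `P(T) - ξ T ^ a` of `α` over `E`
but `ξ` are in `ℤ`. The norm from `ℚ(ξ)` to `ℚ`, that is `T ^ (a N) g(T ^ (-a) P(T))` with the minimal
polynomial `g` of `ξ` over `ℤ`, is a primitive polynomial of degree `N D_Γ(α)`, and therefore it is the
minimal polynomial of `α` over `ℤ`: the degree of `α` over `ℚ(ξ)` is at least its degree over `E`. It is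
decomposable, and its Mahler measure is at least `exp (N / 400000)` (MP_7ab245_nt,
DecomposablePolynomials): the logarithm grows as fast as the degree of `ξ`, which is what is needed to
absorb this degree.
-/

set_option autoImplicit false

open Polynomial LaurentPolynomial

namespace Pool.Agent.Results.MP_f61260_nt.DecomposableRelative

/-- the division group of `Γ` -/
def divGroup (Γ : Subgroup ℂˣ) : Set ℂ :=
  {z : ℂ | z ≠ 0 ∧ ∃ n : ℕ, 1 ≤ n ∧ ∃ g ∈ Γ, (g : ℂ) = z ^ n}

/-- the field generated by the division group of `Γ` -/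
noncomputable def divField (Γ : Subgroup ℂˣ) : IntermediateField ℚ ℂ :=
  IntermediateField.adjoin ℚ (divGroup Γ)

/-- the degree `D_Γ(z)` of `z` over the field generated by the division group -/
noncomputable def deg (Γ : Subgroup ℂˣ) (z : ℂ) : ℕ := (minpoly (divField Γ) z).natDegree

/-- the height of `z` is at least `c`, where the height is the logarithm of the Mahler measure of an
irreducible polynomial with integer coefficients and the zero `z`, divided by its degree -/
def HeightGE (z : ℂ) (c : ℝ) : Prop :=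
  ∀ f : ℤ[X], Irreducible f → aeval z f = 0 →
    c ≤ Real.log (f.map (Int.castRingHom ℂ)).mahlerMeasure / (f.natDegree : ℝ)

/-- The coefficient with index `a` of the minimal polynomial of `z` over `E` has degree at least three
over `ℚ`, the other coefficients are rational integers, and the polynomial is not `X ^ w + b` and not
`X ^ (2 a) + b X ^ a ± 1`. -/
def OneCoefficient (E : IntermediateField ℚ ℂ) (z : ℂ) : Prop :=
  ∃ a : ℕ, (∀ i : ℕ, i ≠ a → ∃ c : ℤ, (minpoly E z).coeff i = c) ∧
    3 ≤ (minpoly ℚ ((minpoly E z).coeff a)).natDegree ∧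
    (∀ b : E, minpoly E z ≠ X ^ (minpoly E z).natDegree + Polynomial.C b) ∧
    (∀ b : E, minpoly E z ≠ X ^ (2 * a) + Polynomial.C b * X ^ a + 1 ∧
      minpoly E z ≠ X ^ (2 * a) + Polynomial.C b * X ^ a - 1)

/-- `h = ε T ^ m + δ T ^ (-m) + c` with `ε = ± 1` and `δ = 0, 1, -1`. -/
def Excluded (h : ℤ[T;T⁻¹]) : Prop :=
  ∃ ε δ c m : ℤ, |ε| = 1 ∧ |δ| ≤ 1 ∧
    h = LaurentPolynomial.C ε * LaurentPolynomial.T m +
      LaurentPolynomial.C δ * LaurentPolynomial.T (-m) + LaurentPolynomial.C c

/-- An irreducible polynomial `f` with integer coefficients and the zero `z` is `T ^ l g(h)` with an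
irreducible `g` of degree `N ≥ 3` and a Laurent polynomial `h` that is not excluded, and the degree of
`f` is at most `A N D`. -/
def Decomposable (z : ℂ) (A : ℝ) (D : ℕ) : Prop :=
  ∃ (f g : ℤ[X]) (h : ℤ[T;T⁻¹]) (l : ℤ), Irreducible f ∧ aeval z f = 0 ∧ Irreducible g ∧
    3 ≤ g.natDegree ∧ ¬ Excluded h ∧ toLaurent f = LaurentPolynomial.T l * aeval h g ∧
    (f.natDegree : ℝ) ≤ A * g.natDegree * D

/-- **Rémond's inequality for numbers with a decomposable minimal polynomial.** -/
theorem result (Γ : Subgroup ℂˣ) (z : ℂ) (hz : IsAlgebraic ℚ z) (hz0 : z ≠ 0) :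
    (OneCoefficient (divField Γ) z → HeightGE z (1 / 400000 / deg Γ z)) ∧
    ∀ A : ℝ, 0 < A → Decomposable z A (deg Γ z) → HeightGE z (1 / (400000 * A) / deg Γ z) := by
  have hzi : IsIntegral ℚ z := hz.isIntegral
  have hD : 0 < deg Γ z := minpoly.natDegree_pos hzi.tower_top
  have hD0 : (0 : ℝ) < deg Γ z := by exact_mod_cast hD
  constructor
  · rintro ⟨a, h1, h2, h3, h4⟩ f hf hfz
    have := Pool.Agent.Run7.h80.Rem.rem_final hzi hz0 h1 h2 h3 h4 hf hfz
    rw [div_div]
    exact this
  · rintro A hA ⟨f, g, h, l, hf, hfz, hg, hgN, hex, hF, hdeg⟩ f' hf' hfz'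
    obtain ⟨E, hE, hb⟩ := Pool.Agent.Run7.h80.Sym.full h (by
      intro ε δ c m hε hδ he
      exact hex ⟨ε, δ, c, m, hε, hδ, he⟩)
    obtain ⟨b1, -⟩ := hb g f l hg.ne_zero hF
    rw [Pool.Agent.Run7.h80.Sym.outE_irreducible hg hgN hE.2] at b1
    have hpos : 0 < Pool.Agent.Run7.h80.Comp.MM f := (Real.exp_pos _).trans_le b1
    have h5 : (g.natDegree : ℝ) / 400000 ≤ Real.log (Pool.Agent.Run7.h80.Comp.MM f) :=
      (Real.le_log_iff_exp_le hpos).2 b1
    -- `f'` is `f` up to sign
    obtain ⟨q, hq⟩ := (Pool.Agent.Run7.h80.Rem.irr_facts hf' hfz').2 f hfz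
    have hqu : IsUnit q := (hf.isUnit_or_isUnit hq).resolve_left hf'.not_isUnit
    obtain ⟨r, hr, hrq⟩ := Polynomial.isUnit_iff.1 hqu
    have hMM : Pool.Agent.Run7.h80.Comp.MM f = (f'.map (Int.castRingHom ℂ)).mahlerMeasure := by
      rw [hq, ← hrq, Pool.Agent.Run7.h80.Comp.MM, Polynomial.map_mul, mahlerMeasure_mul,
        Polynomial.map_C, mahlerMeasure_const, eq_intCast, Complex.norm_intCast]
      have h1 : |(r : ℝ)| = 1 := by exact_mod_cast Int.isUnit_iff_abs_eq.1 hr
      rw [h1, mul_one]
    have hdd : f'.natDegree = f.natDegree := by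
      rw [(Pool.Agent.Run7.h80.Rem.irr_facts hf' hfz').1,
        (Pool.Agent.Run7.h80.Rem.irr_facts hf hfz).1]
    rw [hdd, ← hMM]
    have hf0 : (0 : ℝ) < f.natDegree := by
      exact_mod_cast Pool.Agent.Run7.h80.Rem.natDegree_pos_of_root hf hfz
    rw [div_div, div_le_div_iff₀ (by positivity) hf0, one_mul]
    calc (f.natDegree : ℝ) ≤ A * g.natDegree * deg Γ z := hdeg
      _ = ((g.natDegree : ℝ) / 400000) * (400000 * A * deg Γ z) := by ring
      _ ≤ Real.log (Pool.Agent.Run7.h80.Comp.MM f) * (400000 * A * deg Γ z) :=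
        mul_le_mul_of_nonneg_right h5 (by positivity)

end Pool.Agent.Results.MP_f61260_nt.DecomposableRelative
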