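import Mathlib
import Pool.Agent.Run7.h22.MainN

/-!
# Rémond's inequality for numbers of Galois fields with few complex conjugations

Let `K` be a Galois extension of `ℚ` of finite degree and let `k` be the number of its complex
conjugations, that is of the automorphisms `σ` of `K` such that `φ ∘ σ` is the complex conjugate of `φ`
for some embedding `φ` of `K` in `ℂ`. Let `β` be a nonzero element of `K` which does not have absolute
value one at all embeddings (for instance a unit which is not a root of unity). Then

  `h(β) ≥ c / (k exp (9 √(log (2 k))))`

with an absolute constant `c > 0`. The right side does not depend on the degree of `β`. So for every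
group `Γ` Rémond's inequality `h(β) ≥ (c / A) / D_Γ(β)` holds for all these `β` for which the
denominator on the right is at most `A D_Γ(β)`, for example for all `β` with
`k ≤ D_Γ(β) ^ (1 - ε)`. The group `Γ` can be any group, and neither `c` nor the condition depends on `Γ`.

Method. Let `c` be a complex conjugation of `K` and `Φ` the set of the embeddings for which it is the
complex conjugation, a proportion of at least `1 / k` of all embeddings. The numbers `β c(β)` are
positive at the embeddings in `Φ`. If their conjugates generate a group of large rank, then the many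
products of small height are positive at all embeddings in `Φ`, which contradicts an energy
inequality. The case of small rank uses elements of minimal height and Dobrowolski's theorem.
-/

set_option autoImplicit false

open Polynomial NumberField Module Height

namespace Pool.Agent.Results.MP_f61260_nt.FewComplexConjugations

/-- the division group of `Γ` -/
def divGroup (Γ : Subgroup ℂˣ) : Set ℂ :=
  {z : ℂ | z ≠ 0 ∧ ∃ n : ℕ, 1 ≤ n ∧ ∃ g ∈ Γ, (g : ℂ) = z ^ n}

/-- the field generated by the division group of `Γ` -/
noncomputable def divField (Γ : Subgroup ℂˣ) : IntermediateField ℚ ℂ :=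
  IntermediateField.adjoin ℚ (divGroup Γ)

/-- the degree `D_Γ(z)` of `z` over the field generated by the division group -/
noncomputable def deg (Γ : Subgroup ℂˣ) (z : ℂ) : ℕ := (minpoly (divField Γ) z).natDegree

section

variable {K : Type} [Field K] [NumberField K]

variable (K) in
/-- the complex conjugations of `K`: the automorphisms `σ` of `K` such that `φ ∘ σ` is the complex
conjugate of `φ` for some embedding `φ` of `K` in `ℂ` -/
def complexConjugations : Set (K ≃ₐ[ℚ] K) :=
  {σ | ∃ φ : K →ₐ[ℚ] ℂ, ∀ x, φ (σ x) = starRingEnd ℂ (φ x)}

variable (K) in
/-- the number of the complex conjugations of `K` -/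
noncomputable def k : ℕ := (complexConjugations K).ncard

variable (K) in
/-- the number `k exp (9 √(log (2 k)))`, where `k = k K` -/
noncomputable def cost : ℝ := k K * Real.exp (9 * Real.sqrt (Real.log (2 * k K)))

/-- the absolute logarithmic Weil height (Mathlib's height of an element of the number field `K` is the
relative one) -/
noncomputable def height (β : K) : ℝ := logHeight₁ β / finrank ℚ K

end

/-- **Rémond's inequality for numbers of Galois fields with few complex conjugations.**
There is an absolute constant `c > 0` such that for every Galois number field `K` and every nonzero `β`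
in `K` which does not have absolute value one at all embeddings, with `C = cost K`:
* `h(β) ≥ c / C`;
* for all groups `Γ` of nonzero complex numbers and all embeddings `φ` of `K` in `ℂ`, if
  `C ≤ A D_Γ(φ β)` then `h(β) ≥ (c / A) / D_Γ(φ β)`. -/
theorem result : ∃ c : ℝ, 0 < c ∧ ∀ (K : Type) [Field K] [NumberField K] [IsGalois ℚ K], ∀ β : K,
    β ≠ 0 → (∃ φ : K →+* ℂ, ‖φ β‖ ≠ 1) →
      c / cost K ≤ height β ∧
      ∀ (Γ : Subgroup ℂˣ) (φ : K →+* ℂ) (A : ℝ), 0 < A → cost K ≤ A * deg Γ (φ β) →
        c / A / deg Γ (φ β) ≤ height β := by
  obtain ⟨A₀, hA₀, h⟩ := Pool.Agent.Run7.h22.field_gen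
  refine ⟨1 / A₀, by positivity, ?_⟩
  intro K _ _ _ β h0 ⟨ψ, hψ⟩
  have hN0 : (0:ℝ) < finrank ℚ K := by exact_mod_cast (finrank_pos : 0 < finrank ℚ K)
  have h2 : (finrank ℚ K : ℝ) ≤ A₀ * cost K * logHeight₁ β := h K β h0 ⟨RingHom.toRatAlgHom ψ, hψ⟩
  have hcost : 0 ≤ cost K := by unfold cost; positivity
  have hcost1 : 0 < cost K := by
    rcases hcost.eq_or_lt with h3 | h3
    · rw [← h3, mul_zero, zero_mul] at h2
      linarith
    · exact h3
  have h3 : 1 / A₀ / cost K ≤ height β := by
    unfold height
    rw [div_div, div_le_div_iff₀ (by positivity) hN0, one_mul]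
    linarith
  refine ⟨h3, ?_⟩
  intro Γ φ A hA h4
  have h5 : 1 / A₀ / A / deg Γ (φ β) = 1 / A₀ / (A * deg Γ (φ β)) := by rw [div_div]
  rw [h5]
  refine le_trans ?_ h3
  gcongr

end Pool.Agent.Results.MP_f61260_nt.FewComplexConjugations
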