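import Mathlib
import Pool.Agent.Run7.h22.Rel8

/-!
# Rémond's inequality for units of small degree over a field with few Frobenius automorphisms

Let `K` be a Galois extension of `ℚ` of finite degree and `p` a prime number that is unramified in `K`,
and let `a ≥ 1`. Let `E` be any subfield of `K` that is normal over `ℚ` and let `k` be the number of the
automorphisms of `E` that are `a`-th powers of Frobenius automorphisms above `p`. Let `β` be a unit of
`K`, not a root of unity, which has degree at most `D` over the field generated by `E` and the roots of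
unity of `K` of order prime to `p`. Then

  `h(β) ≥ c / (p ^ (a + 2) D ^ 3 k exp (17 √(log (2 k) log (2 D))))`

with an absolute constant `c > 0`. The right side does not depend on the degree of `β`. So for every
group `Γ` Rémond's inequality `h(β) ≥ (c / A) / D_Γ(β)` holds for all these `β` for which the
denominator on the right is at most `A D_Γ(β)`, for example for all `β` for which some field `E`
satisfies `k ≤ D_Γ(β) ^ (1 - ε)`, `D` and `p ^ a` bounded. The group `Γ` can be any group, and neither `c`
nor the condition depends on `Γ`. This contains the case `D ≤ 2`, `E` the Galois closure of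
`ℚ(β + 1 / β)`.
-/

set_option autoImplicit false

open Polynomial NumberField Module Height

namespace Pool.Agent.Results.MP_f61260_nt.FewFrobeniusUnits

/-- the division group of `Γ` -/
def divGroup (Γ : Subgroup ℂˣ) : Set ℂ :=
  {z : ℂ | z ≠ 0 ∧ ∃ n : ℕ, 1 ≤ n ∧ ∃ g ∈ Γ, (g : ℂ) = z ^ n}

/-- the field generated by the division group of `Γ` -/
noncomputable def divField (Γ : Subgroup ℂˣ) : IntermediateField ℚ ℂ :=
  IntermediateField.adjoin ℚ (divGroup Γ)

/-- the degree `D_Γ(z)` of `z` over the field generated by the division group -/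
noncomputable def deg (Γ : Subgroup ℂˣ) (z : ℂ) : ℕ := (minpoly (divField Γ) z).natDegree

/-- the number `p ^ (a + 2) D ^ 3 k exp (17 √(log (2 k) log (2 D)))` -/
noncomputable def cost (p a D k : ℕ) : ℝ :=
  (p : ℝ) ^ (a + 2) * (D : ℝ) ^ 3 * k *
    Real.exp (17 * Real.sqrt (Real.log (2 * k) * Real.log (2 * D)))

section

variable {K : Type} [Field K] [NumberField K]

variable (K) in
/-- the number `p` is not contained in the square of a prime ideal of the number field `K`; for
a prime number `p` this means that `p` is unramified in `K` -/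
def Unramified (p : ℕ) : Prop :=
  ∀ 𝔓 : Ideal (𝓞 K), 𝔓.IsPrime → (p : 𝓞 K) ∈ 𝔓 → (p : 𝓞 K) ∉ 𝔓 ^ 2

/-- the subfield `E` is normal over `ℚ` -/
def IsNormal (E : IntermediateField ℚ K) : Prop := Normal ℚ E

/-- the automorphisms of a subfield `E` which are congruent to the map `x ↦ x ^ (p ^ a)` modulo some
prime ideal of `E` above `p`; if `p` is unramified they are the `a`-th powers of the Frobenius
automorphisms above `p` -/
def frobenii (E : IntermediateField ℚ K) (p a : ℕ) : Set (E ≃ₐ[ℚ] E) :=
  {σ | ∃ 𝔓 : Ideal (𝓞 E), 𝔓.IsPrime ∧ (p : 𝓞 E) ∈ 𝔓 ∧ ∀ x : 𝓞 E, σ • x - x ^ (p ^ a) ∈ 𝔓}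

/-- the number of these automorphisms -/
noncomputable def k (E : IntermediateField ℚ K) (p a : ℕ) : ℕ := (frobenii E p a).ncard

/-- the field generated by `E` and the `p`-th powers of the roots of unity of `K` (if `p` is
unramified, these are the roots of unity of order prime to `p`, except for signs) -/
def withRoots (E : IntermediateField ℚ K) (p : ℕ) : IntermediateField ℚ K :=
  E ⊔ IntermediateField.adjoin ℚ {x | ∃ ζ : K, (∃ m : ℕ, 0 < m ∧ ζ ^ m = 1) ∧ x = ζ ^ p}

/-- the absolute logarithmic Weil height (Mathlib's height of an element of the number field `K` is the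
relative one) -/
noncomputable def height (β : K) : ℝ := logHeight₁ β / finrank ℚ K

/-- `β` is a unit of the ring of integers and not a root of unity -/
def IsNontorsionUnit (β : K) : Prop :=
  β ≠ 0 ∧ IsIntegral ℤ β ∧ IsIntegral ℤ β⁻¹ ∧ ∀ n : ℕ, 0 < n → β ^ n ≠ 1

end

/-- **Rémond's inequality for units of small degree over a field with few Frobenius automorphisms.**
There is an absolute constant `c > 0` such that for every prime number `p`, every `a ≥ 1`, every Galois
number field `K` in which `p` is unramified, every unit `β` of `K` which is not a root of unity, every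
subfield `E` of `K` which is normal over `ℚ` and all `D` such that `β` has degree at most `D` over
`withRoots E p`, with `C = cost p a D (k E p a)`:
* `h(β) ≥ c / C`;
* for all groups `Γ` of nonzero complex numbers and all embeddings `φ` of `K` in `ℂ`, if
  `C ≤ A D_Γ(φ β)` then `h(β) ≥ (c / A) / D_Γ(φ β)`. -/
theorem result : ∃ c : ℝ, 0 < c ∧ ∀ p a : ℕ, p.Prime → 1 ≤ a → ∀ (K : Type) [Field K] [NumberField K]
    [IsGalois ℚ K], Unramified K p → ∀ β : K, IsNontorsionUnit β →
    ∀ E : IntermediateField ℚ K, IsNormal E → ∀ D : ℕ, (minpoly (withRoots E p) β).natDegree ≤ D →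
      c / cost p a D (k E p a) ≤ height β ∧
      ∀ (Γ : Subgroup ℂˣ) (φ : K →+* ℂ) (A : ℝ), 0 < A →
        cost p a D (k E p a) ≤ A * deg Γ (φ β) → c / A / deg Γ (φ β) ≤ height β := by
  obtain ⟨A₀, hA₀, h⟩ := Pool.Agent.Run7.h22.rel_main
  refine ⟨1 / A₀, by positivity, ?_⟩
  intro p a hp ha K _ _ _ hunr β ⟨h0, hint, hinv, hroot⟩ E hE D hD
  have hE' : Normal ℚ E := hE
  have hN0 : (0:ℝ) < finrank ℚ K := by exact_mod_cast (finrank_pos : 0 < finrank ℚ K)
  have hnor : (Pool.Agent.Run7.h22.NE p E).Normal := Pool.Agent.Run7.h22.NE_normal p E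
  have h1 := h K p a hp ha hunr (Pool.Agent.Run7.h22.NE p E) β ⟨h0, hint, hinv⟩ hroot D
    (k E p a) ((Pool.Agent.Run7.h22.orb_le_degree _ _ (Pool.Agent.Run7.h22.NE_le p E) β).trans hD)
    (Pool.Agent.Run7.h22.NE_count hp hunr E)
  have h2 : (finrank ℚ K : ℝ) ≤ A₀ * cost p a D (k E p a) * logHeight₁ β := by
    rw [Pool.Agent.Run7.h22.logHeight₁_eq_lam hint]
    unfold cost
    calc (finrank ℚ K : ℝ) ≤ _ := h1
      _ = _ := by ring
  have hH0 : 0 ≤ logHeight₁ β := zero_le_logHeight₁ β
  have hcost : 0 ≤ cost p a D (k E p a) := by unfold cost; positivity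
  have hcost1 : 0 < cost p a D (k E p a) := by
    rcases hcost.eq_or_lt with h3 | h3
    · rw [← h3, mul_zero, zero_mul] at h2
      linarith
    · exact h3
  have h3 : 1 / A₀ / cost p a D (k E p a) ≤ height β := by
    unfold height
    rw [div_div, div_le_div_iff₀ (by positivity) hN0, one_mul]
    linarith
  refine ⟨h3, ?_⟩
  intro Γ φ A hA h4
  have h5 : 1 / A₀ / A / deg Γ (φ β) = 1 / A₀ / (A * deg Γ (φ β)) := by rw [div_div]
  rw [h5]
  refine le_trans ?_ h3
  gcongr

end Pool.Agent.Results.MP_f61260_nt.FewFrobeniusUnits
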